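import Pool.Agent.H952.NA.Main2

/-!
# Large commuting subsets of `A ^ 4`; large sets `S` with `S ^ M ⊆ A ^ 4` in arbitrary groups

Let `A` be a symmetric finite subset of an arbitrary group with `|A ^ 3| ≤ K |A|`, and let
`L = 1 + log K`.

1. For every `M` there is a symmetric set `S ∋ 1` with `S ^ M ⊆ A ^ 4` and
   `|S| ≥ exp (- C L ^ 2 (1 + log M + log L)) |A|`: the dependence on `M` is polynomial. (The method
   of Croot and Sisask gives `exp (- C M ^ 2 L ^ 2) |A|`.)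
2. If no element of `A ^ 4` other than `1` has an order smaller than
   `|A| ^ (c / (log (2 K)) ^ 2) / L` (for instance if the group is torsion-free), then `A ^ 4`
   contains a commuting set with at least this number of elements: the powers of an element of `S`.
   The same with `exp (c (log |A|) ^ (1/3) / log (2 K))`, the form of the question.

Proof of 1. (`Pool/Agent/H952/NA`) Put `B = A ^ 2`. Let `S_0` be uniform on `A` and let `S_(i+1)`
have weights proportional to `p_i(x) ^ q`, `p_i(x) = P (x⁻¹ S_i ∈ B)`, `q ~ 16 L` (Boyd's power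
iteration for the norm of `B` from `ℓ_(1+1/q)` to `ℓ_(q+1)`). By Hölder's inequality
`‖p_i‖_(q+1) / ‖S_i‖_(1+1/q)` does not decrease, so `∑ p_i ^ q ≥ K ^ (-3) |A|`, the entropy of `S_i` is
at most `log |A| + 3 log K`, and `P (S_(i+1)⁻¹ S_i ∈ B)` stays near `1`, for all `i`. Let `T ∈ A` be
independent of `S_i` with `H (T S_i) - H (S_i) ≤ c`. Given `m` samples `T s_1, …, T s_m`, `s_j`
distributed as `S_i`, the entropy of `T` drops by at most `m c`, and since
`(T x)⁻¹ (T s_j) = x⁻¹ s_j`, Gibbs' inequality for `T S_(i+1)` and the `q`-th powers of the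
(smoothed) empirical frequencies shows that now `H (T S_(i+1)) - H (S_(i+1)) ≤ 66 q ^ 2 / m`. With
`m = 64 q 2 ^ i` every step costs `O(q ^ 2)` and halves `c`, so `c ≤ 1 / (128 M ^ 2)` is reached after
`O(log (M L))` steps. Then many `t` move the law of `S_n` by at most `1 / (8 M)` in Hellinger
distance, products of `M` quotients of them by at most `1/4`, and for one fixed `s_0` both `x⁻¹ s_0`
and `x⁻¹ u⁻¹ s_0` are in `B` for some `x`; so `s_0⁻¹ u s_0` is in `A ^ 4`.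
-/

set_option autoImplicit false

namespace Pool.Agent.Results.MP_34e614_co.LargePowers

open Finset
open scoped Pointwise

universe u

/-- (1), (2) Commuting sets in `A ^ 4`, if `A ^ 4` contains no elements `≠ 1` of small order (for
instance in torsion-free groups). (3) Large sets `S` with `S ^ M ⊆ A ^ 4`, in every group. -/
theorem result :
    (∃ c : ℝ, 0 < c ∧ ∀ (G : Type u) [Group G] [DecidableEq G] (A : Finset G) (K : ℝ),
      A.Nonempty → A⁻¹ = A → 1 ≤ K → ((A ^ 3).card : ℝ) ≤ K * A.card →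
      (∀ g ∈ A ^ 4, g ≠ 1 → ∀ i : ℕ, 0 < i →
        (i : ℝ) < Real.exp (c * Real.log A.card ^ (1 / 3 : ℝ) / Real.log (2 * K)) → g ^ i ≠ 1) →
      ∃ T : Finset G, T ⊆ A ^ 4 ∧ (∀ x ∈ T, ∀ y ∈ T, x * y = y * x) ∧
        Real.exp (c * Real.log A.card ^ (1 / 3 : ℝ) / Real.log (2 * K)) ≤ T.card) ∧
    (∃ c : ℝ, 0 < c ∧ ∀ (G : Type u) [Group G] [DecidableEq G] (A : Finset G) (K : ℝ),
      A.Nonempty → A⁻¹ = A → 1 ≤ K → ((A ^ 3).card : ℝ) ≤ K * A.card →
      (∀ g ∈ A ^ 4, g ≠ 1 → ∀ i : ℕ, 0 < i →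
        (i : ℝ) < (A.card : ℝ) ^ (c / Real.log (2 * K) ^ 2) / (1 + Real.log K) → g ^ i ≠ 1) →
      ∃ T : Finset G, T ⊆ A ^ 4 ∧ (∀ x ∈ T, ∀ y ∈ T, x * y = y * x) ∧
        (A.card : ℝ) ^ (c / Real.log (2 * K) ^ 2) / (1 + Real.log K) ≤ T.card) ∧
    (∃ C : ℝ, 0 < C ∧ ∀ (G : Type u) [Group G] [DecidableEq G] (A : Finset G) (K : ℝ) (M : ℕ),
      A.Nonempty → A⁻¹ = A → 1 ≤ K → ((A ^ 3).card : ℝ) ≤ K * A.card → 1 ≤ M →
      ∃ S : Finset G, 1 ∈ S ∧ S⁻¹ = S ∧ S ^ M ⊆ A ^ 4 ∧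
        (A.card : ℝ) * Real.exp (-(C * (1 + Real.log K) ^ 2 *
          (1 + Real.log M + Real.log (1 + Real.log K)))) ≤ S.card) := by
  obtain ⟨c1, hc1, h1⟩ := Pool.Agent.H952.NA.comm_main
  obtain ⟨c2, hc2, h2⟩ := Pool.Agent.H952.NA.comm2_main
  obtain ⟨C, hC, h3⟩ := Pool.Agent.H952.NA.pow2_main
  refine ⟨⟨c1, hc1, ?_⟩, ⟨c2, hc2, ?_⟩, ⟨C, by linarith, ?_⟩⟩
  · exact Pool.Agent.H952.NA.comm_u
      (fun a K => Real.exp (c1 * Real.log a ^ (1 / 3 : ℝ) / Real.log (2 * K))) h1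
  · exact Pool.Agent.H952.NA.comm_u
      (fun a K => a ^ (c2 / Real.log (2 * K) ^ 2) / (1 + Real.log K)) h2
  · exact Pool.Agent.H952.NA.pow_u C (fun M K => Real.exp (-(C * (1 + Real.log K) ^ 2 *
      (1 + Real.log M + Real.log (1 + Real.log K))))) h3

end Pool.Agent.Results.MP_34e614_co.LargePowers
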